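import Pool.Agent.H7.KC.Stmts

/-! Row NDJ of the board kc15 (helper89), after `NDMY` (helper87) -/

set_option autoImplicit false

open Finset

namespace Pool.KC7

open Pool.Agent.H23.KT Pool.Agent.H46.KW Pool.KQ Pool.GT7 Pool.GU7 Pool.HZ7 Pool.IA7

/-- Lower bound of the weights. -/
theorem NDJ_ww (p r B : ℕ) (hr : r ≤ p) :
    ((p : ℝ) + 3) / ((p : ℝ) + 3 - r) * (1 - r * (1 / ((B : ℝ) + 1))) ≤ ww p r B := by
  have hrR : (r : ℝ) ≤ p := by exact_mod_cast hr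
  have hb : 0 < (p : ℝ) + 3 - r := by linarith
  have hB : 0 < (B : ℝ) + 1 := by positivity
  unfold ww gg
  push_cast
  split_ifs with h
  · have h' : (B : ℝ) + 1 ≤ r := by exact_mod_cast h
    have h1 : 1 ≤ r * (1 / ((B : ℝ) + 1)) := by
      rw [mul_one_div, one_le_div hB]; exact h'
    have h2 : ((p : ℝ) + 3) / ((p : ℝ) + 3 - r) * (1 - r * (1 / ((B : ℝ) + 1))) ≤ 0 :=
      mul_nonpos_of_nonneg_of_nonpos (by positivity) (by linarith)
    linarith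
  · apply le_of_eq
    field_simp
    ring

/-- Convexity between `y` and `1`. -/
theorem NDJ_conv (u : ℕ) (y x : ℝ) (hy0 : 0 < y) (hy1 : y < 1) (hx : y ≤ x) (hx1 : x ≤ 1) :
    x ^ u ≤ (1 - x) / (1 - y) * y ^ u + (1 - (1 - x) / (1 - y)) := by
  have h1 : 0 < 1 - y := by linarith
  have hl0 : 0 ≤ (1 - x) / (1 - y) := div_nonneg (by linarith) h1.le
  have hl1 : (1 - x) / (1 - y) ≤ 1 := by rw [div_le_one h1]; linarith
  have hc : ConvexOn ℝ (Set.Ici (0 : ℝ)) fun t : ℝ => t ^ u := convexOn_pow u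
  have h2 := hc.2 (Set.mem_Ici.2 hy0.le) (Set.mem_Ici.2 zero_le_one) hl0
    (by linarith : (0 : ℝ) ≤ 1 - (1 - x) / (1 - y)) (by ring)
  simp only [smul_eq_mul, one_pow, mul_one] at h2
  have h3 : (1 - x) / (1 - y) * y + (1 - (1 - x) / (1 - y)) = x := by
    field_simp
    ring
  rw [h3] at h2
  exact h2

theorem NDJ_l (x y : ℝ) (h1 : x ≤ 1) (h2 : 0 < y) : (1 - x) * (1 - y) ≤ 1 - x := by nlinarith

/-- Three terms of the binomial theorem. -/
theorem NDJ_bin (x : ℝ) (hx : 0 ≤ x) : ∀ m : ℕ,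
    1 + m * x + (m : ℝ) * ((m : ℝ) - 1) / 2 * x ^ 2 ≤ (1 + x) ^ m
  | 0 => by norm_num
  | 1 => by norm_num
  | m + 2 => by
    have ih := NDJ_bin x hx (m + 1)
    rw [pow_succ (1 + x) (m + 1)]
    have h1 := mul_le_mul_of_nonneg_right ih (by linarith : (0 : ℝ) ≤ 1 + x)
    refine le_trans ?_ h1
    push_cast
    have h2 : 0 ≤ ((m : ℝ) + 1) * m / 2 * x ^ 3 := by positivity
    have h3 : (1 + ((m : ℝ) + 1) * x + ((m : ℝ) + 1) * ((m : ℝ) + 1 - 1) / 2 * x ^ 2) * (1 + x) =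
        1 + ((m : ℝ) + 2) * x + ((m : ℝ) + 2) * ((m : ℝ) + 2 - 1) / 2 * x ^ 2 +
          ((m : ℝ) + 1) * m / 2 * x ^ 3 := by ring
    linarith

/-- `(m / (m + 1)) ^ m ≤ 4 / 9` for `m ≥ 2`. -/
theorem NDJ_th (w : ℕ) (hw : 1 ≤ w) : (((w : ℝ) + 1) / ((w : ℝ) + 2)) ^ (w + 1) ≤ 4 / 9 := by
  have hwR : (1 : ℝ) ≤ w := by exact_mod_cast hw
  have h1 := NDJ_bin (1 / ((w : ℝ) + 1)) (by positivity) (w + 1)
  have h2 : (9 : ℝ) / 4 ≤ (1 + 1 / ((w : ℝ) + 1)) ^ (w + 1) := by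
    refine le_trans ?_ h1
    push_cast
    have h3 : 1 + ((w : ℝ) + 1) * (1 / ((w : ℝ) + 1)) +
        ((w : ℝ) + 1) * ((w : ℝ) + 1 - 1) / 2 * (1 / ((w : ℝ) + 1)) ^ 2 =
        2 + (w : ℝ) / (2 * ((w : ℝ) + 1)) := by
      field_simp
      ring
    rw [h3]
    have h4 : (1 : ℝ) / 4 ≤ (w : ℝ) / (2 * ((w : ℝ) + 1)) := by
      rw [div_le_div_iff₀ (by norm_num) (by positivity)]
      linarith
    linarith
  have h5 : ((w : ℝ) + 1) / ((w : ℝ) + 2) = (1 + 1 / ((w : ℝ) + 1))⁻¹ := by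
    field_simp
    ring
  rw [h5, inv_pow]
  have h6 : (0 : ℝ) < 9 / 4 := by norm_num
  calc ((1 + 1 / ((w : ℝ) + 1)) ^ (w + 1))⁻¹ ≤ (9 / 4 : ℝ)⁻¹ := inv_anti₀ h6 h2
    _ = 4 / 9 := by norm_num

/-- The value at `y`. -/
theorem NDJ_y (w : ℕ) (hw : 1 ≤ w) (y : ℝ)
    (hy : y = ((w : ℝ) + 1) / ((w : ℝ) + 2) - 1 / (27 * ((w : ℝ) + 3))) :
    0 < y ∧ y < 1 ∧ 1 / 27 ≤ ((w : ℝ) + 3) * y - ((w : ℝ) + 1) - 2 * y ^ (w + 2) := by
  have hwR : (1 : ℝ) ≤ w := by exact_mod_cast hw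
  have h0 := NDJ_th w hw
  set th : ℝ := ((w : ℝ) + 1) / ((w : ℝ) + 2) with hth
  have t1 : 2 / 3 ≤ th := by
    rw [hth, div_le_div_iff₀ (by norm_num) (by positivity)]; linarith
  have t2 : th < 1 := by rw [hth, div_lt_one (by positivity)]; linarith
  have s1 : 0 < 1 / (27 * ((w : ℝ) + 3)) := by positivity
  have s2 : 1 / (27 * ((w : ℝ) + 3)) ≤ 1 / 27 := by
    apply one_div_le_one_div_of_le (by norm_num)
    linarith
  have y0 : 0 < y := by rw [hy]; linarith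
  refine ⟨y0, by rw [hy]; linarith, ?_⟩
  have h1 : y ^ (w + 2) ≤ th ^ (w + 2) := pow_le_pow_left₀ y0.le (by rw [hy]; linarith) _
  have h2 : th ^ (w + 2) = th * th ^ (w + 1) := by rw [pow_succ' th (w + 1)]
  have h3 : th * th ^ (w + 1) ≤ th * (4 / 9) := mul_le_mul_of_nonneg_left h0 (by linarith)
  have h4 : ((w : ℝ) + 3) * y = ((w : ℝ) + 3) * th - 1 / 27 := by
    rw [hy]
    field_simp
  have h5 : ((w : ℝ) + 3) * th - ((w : ℝ) + 1) = th := by
    rw [hth]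
    field_simp
    ring
  linarith

/-- The numerical part. `A = a ^ b`. -/
theorem NDJ_num (p w r : ℕ) (h : PrJ p w r) (ε A N S T x y : ℝ) (hA : 0 < A)
    (hε : ε = e1 p / (1000 * ((p : ℝ) + 3) ^ 3))
    (hy : y = ((w : ℝ) + 1) / ((w : ℝ) + 2) - 1 / (27 * ((w : ℝ) + 3)))
    (h1 : (1 - ε) * A ≤ N)
    (h3 : S ≤ A * (1 / (((p : ℝ) + 3) * x) + ε))
    (h4 : ((p : ℝ) + 3) / ((p : ℝ) + 3 - r) * (N - r * S) ≤ T)
    (hx : y ≤ x) (hx1 : x ≤ 1 - e1 p / (8 * ((p : ℝ) + 2))) :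
    c1 p w * x ^ (w + 1) + s3 p ≤ c1 p w * (1 - pt p w r) + c1 p w * pt p w r * (T / A) := by
  have hp0 : (0 : ℝ) ≤ p := Nat.cast_nonneg p
  have hr4 : (4 : ℝ) ≤ r := by
    have a1 := h.s1
    have a2 := h.w1
    have a3 := h.rp
    have a4 : 3 ≤ p + 3 - r := by omega
    have a5 : 2 * 3 ≤ (w + 1) * (p + 3 - r) := Nat.mul_le_mul (by omega) a4
    have : 4 ≤ r := by omega
    exact_mod_cast this
  have he : 0 < e1 p := by unfold e1; positivity
  have hrp : (r : ℝ) ≤ p := by exact_mod_cast h.rp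
  have hw1 : (1 : ℝ) ≤ w := by exact_mod_cast h.w1
  have hwp : (w : ℝ) ≤ p := by exact_mod_cast h.wp
  have hβ : 0 < (p : ℝ) + 3 - r := by linarith
  obtain ⟨y0, y1, hH⟩ := NDJ_y w h.w1 y hy
  have hx0 : 0 < x := lt_of_lt_of_le y0 hx
  have hδ : 0 < e1 p / (8 * ((p : ℝ) + 2)) := by positivity
  have hxle : x ≤ 1 := by linarith
  have hεpos : 0 < ε := by rw [hε]; positivity
  -- concavity
  have hconv := NDJ_conv (w + 2) y x y0 y1 hx hxle
  have h1y : 0 < 1 - y := by linarith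
  set l : ℝ := (1 - x) / (1 - y) with hl
  have hll : e1 p / (8 * ((p : ℝ) + 2)) ≤ l := by
    have : 1 - x ≤ l := by
      rw [hl, le_div_iff₀ h1y]
      exact NDJ_l x _ hxle y0
    linarith
  have hlx : x = 1 - l * (1 - y) := by
    rw [hl]; field_simp; ring
  have i1 : e1 p / (8 * ((p : ℝ) + 2)) / 27 ≤
      ((w : ℝ) + 3) * x - ((w : ℝ) + 1) - 2 * x ^ (w + 2) := by
    have j1 : l * (1 / 27) ≤ l * (((w : ℝ) + 3) * y - ((w : ℝ) + 1) - 2 * y ^ (w + 2)) :=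
      mul_le_mul_of_nonneg_left hH (hδ.le.trans hll)
    have j2 : ((w : ℝ) + 3) * x = ((w : ℝ) + 3) * (1 - l * (1 - y)) := by rw [← hlx]
    have j3 : ((w : ℝ) + 3) * (1 - l * (1 - y)) - ((w : ℝ) + 1) -
        2 * (l * y ^ (w + 2) + (1 - l)) =
        l * (((w : ℝ) + 3) * y - ((w : ℝ) + 1) - 2 * y ^ (w + 2)) := by ring
    linarith
  have i3 : e1 p / (8 * ((p : ℝ) + 2)) / 54 ≤
      ((w : ℝ) + 3) / 2 - ((w : ℝ) + 1) / (2 * x) - x ^ (w + 1) := by
    have k1 : ((w : ℝ) + 3) / 2 - ((w : ℝ) + 1) / (2 * x) - x ^ (w + 1) =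
        (((w : ℝ) + 3) * x - ((w : ℝ) + 1) - 2 * x ^ (w + 2)) / (2 * x) := by
      field_simp
      ring
    rw [k1, le_div_iff₀ (by positivity)]
    refine le_trans ?_ i1
    have : e1 p / (8 * ((p : ℝ) + 2)) / 54 * (2 * x) =
        e1 p / (8 * ((p : ℝ) + 2)) / 27 * x := by ring
    rw [this]
    exact mul_le_of_le_one_right (by positivity) hxle
  -- the weights
  have i2 : ((p : ℝ) + 3) / ((p : ℝ) + 3 - r) *
      ((1 - ε) - r * (1 / (((p : ℝ) + 3) * x) + ε)) ≤ T / A := by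
    rw [le_div_iff₀ hA]
    refine le_trans ?_ h4
    have k2 : ((p : ℝ) + 3) / ((p : ℝ) + 3 - r) *
        ((1 - ε) - r * (1 / (((p : ℝ) + 3) * x) + ε)) * A =
        ((p : ℝ) + 3) / ((p : ℝ) + 3 - r) *
          ((1 - ε) * A - r * (A * (1 / (((p : ℝ) + 3) * x) + ε))) := by ring
    rw [k2]
    apply mul_le_mul_of_nonneg_left _ (by positivity)
    have := mul_le_mul_of_nonneg_left h3 (by linarith : (0 : ℝ) ≤ r)
    linarith
  have hpt0 : 0 ≤ pt p w r := by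
    unfold pt
    apply div_nonneg (mul_nonneg (by linarith) hβ.le) (by linarith)
  have i4 : ((w : ℝ) + 3) / 2 - ((w : ℝ) + 1) / (2 * x) - ε * ((p : ℝ) + 3) ^ 2 ≤
      (1 - pt p w r) + pt p w r * (T / A) := by
    have k3 := mul_le_mul_of_nonneg_left i2 hpt0
    have k4 : pt p w r * (((p : ℝ) + 3) / ((p : ℝ) + 3 - r) *
        ((1 - ε) - r * (1 / (((p : ℝ) + 3) * x) + ε))) =
        ((w : ℝ) + 1) * ((p : ℝ) + 3) / (2 * r) - ((w : ℝ) + 1) / (2 * x) -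
          ε * (((w : ℝ) + 1) * ((p : ℝ) + 3) * (1 + r) / (2 * r)) := by
      unfold pt
      have : (r : ℝ) ≠ 0 := by linarith
      field_simp
      ring
    have k5 : 1 - pt p w r = ((w : ℝ) + 3) / 2 - ((w : ℝ) + 1) * ((p : ℝ) + 3) / (2 * r) := by
      unfold pt
      have : (r : ℝ) ≠ 0 := by linarith
      field_simp
      ring
    have k6 : ((w : ℝ) + 1) * ((p : ℝ) + 3) * (1 + r) / (2 * r) ≤ ((p : ℝ) + 3) ^ 2 := by
      rw [div_le_iff₀ (by linarith)]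
      have m1 : ((w : ℝ) + 1) * ((p : ℝ) + 3) * (1 + r) ≤
          (((p : ℝ) + 3) * ((p : ℝ) + 3)) * (2 * r) := by
        apply mul_le_mul _ (by linarith) (by linarith) (by positivity)
        exact mul_le_mul_of_nonneg_right (by linarith) (by linarith)
      rw [sq]; exact m1
    have k7 := mul_le_mul_of_nonneg_left k6 hεpos.le
    linarith
  -- constants
  have hc : (1 : ℝ) ≤ c1 p w := by
    unfold c1
    have : 1 ≤ (p + 2).choose (w + 1) := Nat.choose_pos (by have := h.wp; omega)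
    exact_mod_cast this
  have hb7 : (7 : ℝ) ≤ (p : ℝ) + 3 := by linarith
  have i5 : s3 p + ε * ((p : ℝ) + 3) ^ 2 ≤ e1 p / (8 * ((p : ℝ) + 2)) / 54 := by
    have q1 : ε * ((p : ℝ) + 3) ^ 2 = e1 p / (1000 * ((p : ℝ) + 3)) := by
      rw [hε]; field_simp
    have q2 : s3 p ≤ e1 p / (1792 * ((p : ℝ) + 3)) := by
      unfold s3
      apply div_le_div_of_nonneg_left he.le (by positivity)
      have : ((p : ℝ) + 3) ^ 2 = ((p : ℝ) + 3) * ((p : ℝ) + 3) := sq _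
      rw [this]
      have := mul_le_mul_of_nonneg_right hb7 (by linarith : (0 : ℝ) ≤ (p : ℝ) + 3)
      linarith
    have q3 : e1 p / (8 * ((p : ℝ) + 2)) / 54 = e1 p / (432 * ((p : ℝ) + 2)) := by
      rw [div_div]; congr 1; ring
    have q4 : e1 p / (432 * ((p : ℝ) + 3)) ≤ e1 p / (432 * ((p : ℝ) + 2)) :=
      div_le_div_of_nonneg_left he.le (by positivity) (by linarith)
    have q5 : e1 p / (1792 * ((p : ℝ) + 3)) + e1 p / (1000 * ((p : ℝ) + 3)) ≤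
        e1 p / (432 * ((p : ℝ) + 3)) := by
      have z1 : e1 p / (1792 * ((p : ℝ) + 3)) = e1 p / ((p : ℝ) + 3) * (1 / 1792) := by
        field_simp
      have z2 : e1 p / (1000 * ((p : ℝ) + 3)) = e1 p / ((p : ℝ) + 3) * (1 / 1000) := by
        field_simp
      have z3 : e1 p / (432 * ((p : ℝ) + 3)) = e1 p / ((p : ℝ) + 3) * (1 / 432) := by
        field_simp
      have z4 : 0 ≤ e1 p / ((p : ℝ) + 3) := by positivity
      rw [z1, z2, z3, ← mul_add]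
      exact mul_le_mul_of_nonneg_left (by norm_num) z4
    rw [q1, q3]
    linarith
  have hs3 : 0 ≤ s3 p := by unfold s3; positivity
  have i6 : x ^ (w + 1) + s3 p ≤ (1 - pt p w r) + pt p w r * (T / A) := by linarith
  have i7 := mul_le_mul_of_nonneg_left i6 (by linarith : (0 : ℝ) ≤ c1 p w)
  have i8 : s3 p ≤ c1 p w * s3 p := le_mul_of_one_le_left hs3 hc
  have i9 : c1 p w * (x ^ (w + 1) + s3 p) = c1 p w * x ^ (w + 1) + c1 p w * s3 p := by ring
  have i10 : c1 p w * ((1 - pt p w r) + pt p w r * (T / A)) =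
      c1 p w * (1 - pt p w r) + c1 p w * pt p w r * (T / A) := by ring
  linarith

theorem NDJ_thm (_hG : GCJStmt) (hP : Pool.GY7.PRGStmt) (hF : PRFStmt) (hZ : ZYGStmt)
    (_hC : CCK0Stmt) (_hO : GCO0Stmt) : NDJStmt := by
  intro p w r h
  have hp0 : (0 : ℝ) ≤ p := Nat.cast_nonneg p
  have hr4 : 4 ≤ r := by
    have a1 := h.s1
    have a2 := h.w1
    have a3 := h.rp
    have a4 : 3 ≤ p + 3 - r := by omega
    have a5 : 2 * 3 ≤ (w + 1) * (p + 3 - r) := Nat.mul_le_mul (by omega) a4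
    omega
  have h0 : Pr0 p w r := ⟨h.wp, by omega, h.rp⟩
  have he : 0 < e1 p := by unfold e1; positivity
  obtain ⟨y, hy⟩ : ∃ y : ℝ, y = ((w : ℝ) + 1) / ((w : ℝ) + 2) - 1 / (27 * ((w : ℝ) + 3)) :=
    ⟨_, rfl⟩
  have hy0 : 0 < y := (NDJ_y w h.w1 y hy).1
  set ε : ℝ := e1 p / (1000 * ((p : ℝ) + 3) ^ 3) with hε
  have hε0 : 0 < ε := by positivity
  obtain ⟨e₀, he₀, hP1⟩ := hF p ε hε0
  obtain ⟨e₂, he₂, hG1⟩ := hP p ε y hε0 hy0
  refine ⟨min (min e₀ e₂) (e1 p / 2), lt_min (lt_min he₀ he₂) (by positivity), fun C => ?_⟩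
  obtain ⟨a₀, hP2⟩ := hP1 C
  obtain ⟨a₂, hG2⟩ := hG1 C
  refine ⟨max (max a₀ a₂) 1, fun a ha V _ G e W P U hStr he0 hee hCB z hz hn => ?_⟩
  have ha0 : a₀ ≤ a := le_trans (le_trans (le_max_left _ _) (le_max_left _ _)) ha
  have ha2 : a₂ ≤ a := le_trans (le_trans (le_max_right _ _) (le_max_left _ _)) ha
  have ha1 : 1 ≤ a := le_trans (le_max_right _ _) ha
  have haR : (0 : ℝ) < a := by exact_mod_cast ha1
  have hee0 : e ≤ e₀ := hee.trans ((min_le_left _ _).trans (min_le_left _ _))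
  have hee2 : e ≤ e₂ := hee.trans ((min_le_left _ _).trans (min_le_right _ _))
  obtain ⟨p1, -, -, -, -, -, p7⟩ := hP2 a ha0 G e W P U hStr he0 hee0 hCB z hz
  have hn' : y * (((p : ℝ) + 2) * a) ≤ ((nb G (un P) z).card : ℝ) := by
    refine le_trans (le_of_eq ?_) hn
    rw [hy]; ring
  have g1 := hG2 a ha2 G e W P U hStr he0 hee2 hCB z hz hn'
  set X := un P with hX
  have hXW : X ⊆ W := by
    intro v hv
    rw [hX, un, mem_biUnion] at hv
    obtain ⟨i, -, hi⟩ := hv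
    exact (hStr.cov v).2 (Or.inr ⟨i, hi⟩)
  have hzW : z ∈ W := (hStr.cov z).2 (Or.inl hz)
  set x : ℝ := ((nb G X z).card : ℝ) / (((p : ℝ) + 2) * a) with hx
  have hxn : ((nb G X z).card : ℝ) = x * (((p : ℝ) + 2) * a) := by rw [hx]; field_simp
  have hA : (0 : ℝ) < (a : ℝ) ^ (p + 3) := by positivity
  have hyx : y ≤ x := by
    rw [hx, le_div_iff₀ (by positivity)]; exact hn'
  have hx0 : 0 < x := lt_of_lt_of_le hy0 hyx
  have h4 : ((p : ℝ) + 3) / ((p : ℝ) + 3 - r) * ((kc G X (p + 3) : ℝ) -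
      r * ∑ L ∈ clq G X (p + 3), 1 / (((nb G L z).card : ℝ) + 1)) ≤ TZ G p r X z := by
    unfold TZ
    have : (kc G X (p + 3) : ℝ) = ∑ L ∈ clq G X (p + 3), (1 : ℝ) := by
      rw [sum_const, nsmul_eq_mul, mul_one]
      rfl
    rw [this, mul_sum, ← sum_sub_distrib, mul_sum]
    exact sum_le_sum fun L _ => NDJ_ww p r _ h.rp
  have key := NDJ_num p w r h ε ((a : ℝ) ^ (p + 3)) (kc G X (p + 3))
    (∑ L ∈ clq G X (p + 3), 1 / (((nb G L z).card : ℝ) + 1)) (TZ G p r X z) x y hA hε hy p1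
    (by
      refine g1.trans (le_of_eq ?_)
      rw [hxn]
      congr 2
      field_simp) h4 hyx
    (by
      rw [hx, div_le_iff₀ (by positivity)]
      refine p7.trans (le_of_eq ?_)
      field_simp)
  -- Zykov
  have hCBz : CB G (nb G X z) (p + 2) := by
    intro S hS hcl
    have hzS : z ∉ S := fun hzS => G.loopless.irrefl z ((mem_nb G).1 (hS hzS)).2
    have := hCB (insert z S)
      (by
        intro v hv
        rcases mem_insert.1 hv with rfl | hv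
        · exact hzW
        · exact hXW ((mem_nb G).1 (hS hv)).1)
      (by
        rw [coe_insert]
        refine hcl.insert fun v hv _ => ((mem_nb G).1 (hS hv)).2)
    rw [card_insert_of_notMem hzS] at this
    omega
  have hk := hZ G (p + 2) (nb G X z) hCBz (w + 1)
  have hk2 : (kc G (nb G X z) (w + 1) : ℝ) ≤
      c1 p w * x ^ (w + 1) * (a : ℝ) ^ (w + 1) := by
    refine hk.trans (le_of_eq ?_)
    unfold c1
    rw [hxn, mul_assoc, ← mul_pow]
    congr 2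
    push_cast
    field_simp
  unfold ndj
  apply max_eq_left
  have haw : (0 : ℝ) ≤ (a : ℝ) ^ (w + 1) := by positivity
  have e9 : Mt p w r a * TZ G p r X z =
      c1 p w * pt p w r * (TZ G p r X z / (a : ℝ) ^ (p + 3)) * (a : ℝ) ^ (w + 1) := by
    unfold Mt
    ring
  have e10 := mul_le_mul_of_nonneg_right key haw
  rw [e9]
  have e11 : (c1 p w * x ^ (w + 1) + s3 p) * (a : ℝ) ^ (w + 1) =
      c1 p w * x ^ (w + 1) * (a : ℝ) ^ (w + 1) + s3 p * (a : ℝ) ^ (w + 1) := by ring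
  have e12 : (c1 p w * (1 - pt p w r) + c1 p w * pt p w r *
      (TZ G p r X z / (a : ℝ) ^ (p + 3))) * (a : ℝ) ^ (w + 1) =
      c1 p w * (1 - pt p w r) * (a : ℝ) ^ (w + 1) + c1 p w * pt p w r *
      (TZ G p r X z / (a : ℝ) ^ (p + 3)) * (a : ℝ) ^ (w + 1) := by ring
  rw [e11, e12] at e10
  linarith

end Pool.KC7
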